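import Mathlib

set_option autoImplicit false

/-!
Connectivity of the graph of a finite family of linear functionals, each of which is uniquely
exposed: two functionals are adjacent if for some point they are exactly the two maximisers.
-/

namespace Pool.Agent.Cubical

open Finset

variable {E : Type} [AddCommGroup E] [Module ℝ E] {ι : Type}

/-- the maximisers of the family `f` over `S` at the point `z`. -/
noncomputable def amax (f : ι → E →ₗ[ℝ] ℝ) (S : Finset ι) (z : E) : Finset ι := by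
  classical exact S.filter (fun k => ∀ j ∈ S, f j z ≤ f k z)

lemma mem_amax {f : ι → E →ₗ[ℝ] ℝ} {S : Finset ι} {z : E} {k : ι} :
    k ∈ amax f S z ↔ k ∈ S ∧ ∀ j ∈ S, f j z ≤ f k z := by
  classical
  simp [amax]

lemma amax_subset (f : ι → E →ₗ[ℝ] ℝ) (S : Finset ι) (z : E) : amax f S z ⊆ S := by
  intro k hk
  exact (mem_amax.1 hk).1

/-- intermediate value: on the segment from a point where `A` wins to a point where `B` wins there
is a point where they tie. -/
lemma exists_tie [DecidableEq ι] (f : ι → E →ₗ[ℝ] ℝ) (A B : Finset ι) (hA : A.Nonempty) (hB : B.Nonempty)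
    (za zb : E) (ha : ∃ a ∈ A, ∀ b ∈ B, f b za ≤ f a za) (hb : ∃ b ∈ B, ∀ a ∈ A, f a zb ≤ f b zb) :
    ∃ s : ℝ, 0 ≤ s ∧ s ≤ 1 ∧ ∃ a ∈ A, ∃ b ∈ B,
      f a ((1 - s) • za + s • zb) = f b ((1 - s) • za + s • zb) ∧
      ∀ k ∈ A ∪ B, f k ((1 - s) • za + s • zb) ≤ f a ((1 - s) • za + s • zb) := by
  classical
  set p : ℝ → E := fun s => (1 - s) • za + s • zb with hp
  have hcont : ∀ i, Continuous (fun s : ℝ => f i (p s)) := by
    intro i
    have : (fun s : ℝ => f i (p s)) = fun s : ℝ => (1 - s) * f i za + s * f i zb := by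
      funext s
      simp [hp]
    rw [this]
    fun_prop
  set MA : ℝ → ℝ := fun s => A.sup' hA (fun i => f i (p s)) with hMA
  set MB : ℝ → ℝ := fun s => B.sup' hB (fun i => f i (p s)) with hMB
  have hcA : Continuous MA := Continuous.finset_sup'_apply hA (fun i _ => hcont i)
  have hcB : Continuous MB := Continuous.finset_sup'_apply hB (fun i _ => hcont i)
  have hp0 : p 0 = za := by simp [hp]
  have hp1 : p 1 = zb := by simp [hp]
  have h0 : 0 ≤ MA 0 - MB 0 := by
    obtain ⟨a, haA, hab⟩ := ha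
    have h1 : f a (p 0) ≤ MA 0 := Finset.le_sup' (fun i => f i (p 0)) haA
    have h2 : MB 0 ≤ f a (p 0) := by
      apply Finset.sup'_le
      intro b hb'
      rw [hp0]
      exact hab b hb'
    linarith
  have h1 : MA 1 - MB 1 ≤ 0 := by
    obtain ⟨b, hbB, hba⟩ := hb
    have h1 : f b (p 1) ≤ MB 1 := Finset.le_sup' (fun i => f i (p 1)) hbB
    have h2 : MA 1 ≤ f b (p 1) := by
      apply Finset.sup'_le
      intro a ha'
      rw [hp1]
      exact hba a ha'
    linarith
  have hIVT := intermediate_value_Icc' (zero_le_one' ℝ)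
    ((hcA.sub hcB).continuousOn (s := Set.Icc (0:ℝ) 1))
  obtain ⟨s, hs, hs0⟩ := hIVT ⟨h1, h0⟩
  refine ⟨s, hs.1, hs.2, ?_⟩
  obtain ⟨a, haA, ha'⟩ := Finset.exists_mem_eq_sup' hA (fun i => f i (p s))
  obtain ⟨b, hbB, hb'⟩ := Finset.exists_mem_eq_sup' hB (fun i => f i (p s))
  have hs0' : MA s = MB s := by
    have : MA s - MB s = 0 := hs0
    linarith
  refine ⟨a, haA, b, hbB, ?_, ?_⟩
  · calc f a (p s) = MA s := ha'.symm
      _ = MB s := hs0'
      _ = f b (p s) := hb'
  · intro k hk
    rcases Finset.mem_union.1 hk with hk | hk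
    · calc f k (p s) ≤ MA s := Finset.le_sup' (fun i => f i (p s)) hk
        _ = f a (p s) := ha'
    · calc f k (p s) ≤ MB s := Finset.le_sup' (fun i => f i (p s)) hk
        _ = MA s := hs0'.symm
        _ = f a (p s) := ha'

/-- one refinement step: if at `z` more than two functionals tie, and both parts are present, then
there is a point with fewer maximisers where both parts are still present. -/
lemma refine_step [DecidableEq ι] (f : ι → E →ₗ[ℝ] ℝ) (A B : Finset ι)
    (hexp : ∀ i ∈ A ∪ B, ∃ z, ∀ j ∈ A ∪ B, j ≠ i → f j z < f i z) (z : E)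
    (a c b : ι) (haA : a ∈ A) (hcA : c ∈ A) (hbB : b ∈ B) (hab : a ≠ b)
    (hac : a ≠ c) (hcb : c ≠ b)
    (ha : a ∈ amax f (A ∪ B) z) (hc : c ∈ amax f (A ∪ B) z) (hb : b ∈ amax f (A ∪ B) z) :
    ∃ z', (∃ a' ∈ A, a' ∈ amax f (A ∪ B) z') ∧ (∃ b' ∈ B, b' ∈ amax f (A ∪ B) z') ∧
      (amax f (A ∪ B) z').card < (amax f (A ∪ B) z).card := by
  classical
  set S := A ∪ B with hS
  set T := amax f S z with hT
  -- witness for b
  obtain ⟨zb, hzb⟩ := hexp b (Finset.mem_union_right _ hbB)
  -- wlog f c zb ≤ f a zb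
  wlog hle : f c zb ≤ f a zb generalizing a c
  · exact this c a hcA haA hcb hac.symm hab hc ha (le_of_not_ge hle)
  obtain ⟨za, hza⟩ := hexp a (Finset.mem_union_left _ haA)
  have hTS : T ⊆ S := amax_subset f S z
  -- apply tie to T ∩ A, T ∩ B
  have haT : a ∈ T.filter (· ∈ A) := Finset.mem_filter.2 ⟨ha, haA⟩
  have hbT : b ∈ T.filter (· ∈ B) := Finset.mem_filter.2 ⟨hb, hbB⟩
  obtain ⟨s, hs0, hs1, a', ha', b', hb', htie, hmax⟩ := exists_tie f (T.filter (· ∈ A))
    (T.filter (· ∈ B)) ⟨a, haT⟩ ⟨b, hbT⟩ za zb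
    ⟨a, haT, fun j hj => by
      by_cases hja : j = a
      · rw [hja]
      · exact (hza j (hTS (Finset.mem_filter.1 hj).1) hja).le⟩
    ⟨b, hbT, fun j hj => by
      by_cases hjb : j = b
      · rw [hjb]
      · exact (hzb j (hTS (Finset.mem_filter.1 hj).1) hjb).le⟩
  set y : E := (1 - s) • za + s • zb with hy
  have hfy : ∀ i, f i y = (1 - s) * f i za + s * f i zb := by
    intro i
    simp [hy]
  have hmaxT : ∀ k ∈ T, f k y ≤ f a' y := by
    intro k hk
    apply hmax
    rcases Finset.mem_union.1 (hTS hk) with h | h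
    · exact Finset.mem_union_left _ (Finset.mem_filter.2 ⟨hk, h⟩)
    · exact Finset.mem_union_right _ (Finset.mem_filter.2 ⟨hk, h⟩)
  -- not all elements of T tie at y
  have hnot : ∃ k ∈ T, f k y < f a' y := by
    by_contra hcon
    push Not at hcon
    have hall : ∀ k ∈ T, f k y = f a' y := fun k hk => le_antisymm (hmaxT k hk) (hcon k hk)
    have e1 : f a y = f b y := by rw [hall a ha, hall b hb]
    have e2 : f a y = f c y := by rw [hall a ha, hall c hc]
    rw [hfy, hfy] at e1 e2
    have g1 : f b za < f a za := hza b (hTS hb) hab.symm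
    have g2 : f a zb < f b zb := hzb a (hTS ha) hab
    have g3 : f c za < f a za := hza c (hTS hc) hac.symm
    have hs : s < 1 := by
      rcases lt_or_eq_of_le hs1 with h | h
      · exact h
      · exfalso
        rw [h] at e1
        linarith
    have h1s : 0 < 1 - s := by linarith
    have : (1 - s) * f c za < (1 - s) * f a za := mul_lt_mul_of_pos_left g3 h1s
    have : s * f c zb ≤ s * f a zb := mul_le_mul_of_nonneg_left hle hs0
    linarith
  obtain ⟨k0, hk0, hk0lt⟩ := hnot
  -- small perturbation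
  have heps : ∃ ε : ℝ, 0 < ε ∧ ∀ k ∈ S, k ∉ T → f k (z + ε • y) < f a' (z + ε • y) := by
    have ha'T : a' ∈ T := (Finset.mem_filter.1 ha').1
    have hlt : ∀ k ∈ S, k ∉ T → f k z < f a' z := by
      intro k hk hkT
      have h1 : f k z ≤ f a' z := (mem_amax.1 ha'T).2 k hk
      rcases lt_or_eq_of_le h1 with h | h
      · exact h
      · exfalso
        apply hkT
        rw [hT, mem_amax]
        refine ⟨hk, fun j hj => ?_⟩
        rw [h]
        exact (mem_amax.1 ha'T).2 j hj
    have hev : ∀ k ∈ S, k ∉ T → ∀ᶠ ε in nhdsWithin (0:ℝ) (Set.Ioi 0),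
        f k (z + ε • y) < f a' (z + ε • y) := by
      intro k hk hkT
      have hc1 : Continuous (fun ε : ℝ => f a' (z + ε • y) - f k (z + ε • y)) := by
        have : (fun ε : ℝ => f a' (z + ε • y) - f k (z + ε • y)) =
            fun ε : ℝ => (f a' z + ε * f a' y) - (f k z + ε * f k y) := by
          funext ε
          simp
        rw [this]
        fun_prop
      have h0 : 0 < (fun ε : ℝ => f a' (z + ε • y) - f k (z + ε • y)) 0 := by
        simp only [zero_smul, add_zero]
        linarith [hlt k hk hkT]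
      have := (hc1.tendsto 0).eventually (lt_mem_nhds h0)
      filter_upwards [this.filter_mono nhdsWithin_le_nhds] with ε hε
      linarith
    have hev2 : ∀ᶠ ε in nhdsWithin (0:ℝ) (Set.Ioi 0), ∀ k ∈ S, k ∉ T →
        f k (z + ε • y) < f a' (z + ε • y) := by
      have : ∀ᶠ ε in nhdsWithin (0:ℝ) (Set.Ioi 0), ∀ k ∈ S, (k ∉ T →
        f k (z + ε • y) < f a' (z + ε • y)) := by
        rw [Filter.eventually_all_finset]
        intro k hk
        by_cases hkT : k ∈ T
        · filter_upwards with ε h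
          exact absurd hkT h
        · filter_upwards [hev k hk hkT] with ε hε _
          exact hε
      exact this
    obtain ⟨ε, hε1, hε2⟩ := (hev2.and self_mem_nhdsWithin).exists
    exact ⟨ε, hε2, hε1⟩
  obtain ⟨ε, hε, hεlt⟩ := heps
  have ha'T : a' ∈ T := (Finset.mem_filter.1 ha').1
  have hb'T : b' ∈ T := (Finset.mem_filter.1 hb').1
  have hzT : ∀ k ∈ T, ∀ l ∈ T, f k z = f l z := fun k hk l hl =>
    le_antisymm ((mem_amax.1 hl).2 k (hTS hk)) ((mem_amax.1 hk).2 l (hTS hl))
  have hmaxS : ∀ k ∈ S, f k (z + ε • y) ≤ f a' (z + ε • y) := by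
    intro k hk
    by_cases hkT : k ∈ T
    · rw [map_add, map_add, map_smul, map_smul, smul_eq_mul, smul_eq_mul, hzT k hkT a' ha'T]
      have := mul_le_mul_of_nonneg_left (hmaxT k hkT) hε.le
      linarith
    · exact (hεlt k hk hkT).le
  have hval : f b' (z + ε • y) = f a' (z + ε • y) := by
    rw [map_add, map_add, map_smul, map_smul, hzT b' hb'T a' ha'T, htie]
  refine ⟨z + ε • y, ⟨a', (Finset.mem_filter.1 ha').2, mem_amax.2 ⟨hTS ha'T, hmaxS⟩⟩,
    ⟨b', (Finset.mem_filter.1 hb').2, mem_amax.2 ⟨hTS hb'T, fun j hj => ?_⟩⟩, ?_⟩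
  · rw [hval]
    exact hmaxS j hj
  · apply Finset.card_lt_card
    rw [Finset.ssubset_iff_of_subset]
    · refine ⟨k0, hk0, fun hcon => ?_⟩
      have h1 := (mem_amax.1 hcon).2 a' (hTS ha'T)
      rw [map_add, map_add, map_smul, map_smul, smul_eq_mul, smul_eq_mul,
        hzT a' ha'T k0 hk0] at h1
      have := mul_lt_mul_of_pos_left hk0lt hε
      linarith
    · intro k hk
      by_contra hkT
      have h1 := (mem_amax.1 hk).2 a' (hTS ha'T)
      have h2 := hεlt k (amax_subset _ _ _ hk) hkT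
      linarith

/-- Between two nonempty parts of a family of uniquely exposed functionals there is an edge. -/
theorem exists_edge [DecidableEq ι] (f : ι → E →ₗ[ℝ] ℝ) (A B : Finset ι) (hA : A.Nonempty) (hB : B.Nonempty)
    (hAB : Disjoint A B)
    (hexp : ∀ i ∈ A ∪ B, ∃ z, ∀ j ∈ A ∪ B, j ≠ i → f j z < f i z) :
    ∃ a ∈ A, ∃ b ∈ B, ∃ z, f a z = f b z ∧
      ∀ k ∈ A ∪ B, k ≠ a → k ≠ b → f k z < f a z := by
  classical
  have key : ∀ n : ℕ, ∀ z, (amax f (A ∪ B) z).card ≤ n → (∃ a' ∈ A, a' ∈ amax f (A ∪ B) z) →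
      (∃ b' ∈ B, b' ∈ amax f (A ∪ B) z) → ∃ a ∈ A, ∃ b ∈ B, ∃ z, f a z = f b z ∧
      ∀ k ∈ A ∪ B, k ≠ a → k ≠ b → f k z < f a z := by
    intro n
    induction n with
    | zero =>
      intro z hz ⟨a, _, ha⟩ _
      exfalso
      have := Finset.card_pos.2 ⟨a, ha⟩
      omega
    | succ n ih =>
      intro z hz ⟨a, haA, ha⟩ ⟨b, hbB, hb⟩
      have hab : a ≠ b := by
        rintro rfl
        exact (Finset.disjoint_left.1 hAB haA) hbB
      by_cases h2 : ∀ k ∈ amax f (A ∪ B) z, k = a ∨ k = b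
      · refine ⟨a, haA, b, hbB, z, ?_, ?_⟩
        · exact le_antisymm ((mem_amax.1 hb).2 a (Finset.mem_union_left _ haA))
            ((mem_amax.1 ha).2 b (Finset.mem_union_right _ hbB))
        · intro k hk hka hkb
          by_contra hcon
          push Not at hcon
          have : k ∈ amax f (A ∪ B) z := by
            rw [mem_amax]
            refine ⟨hk, fun j hj => le_trans ((mem_amax.1 ha).2 j hj) hcon⟩
          rcases h2 k this with h | h
          · exact hka h
          · exact hkb h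
      · push Not at h2
        obtain ⟨c, hc, hca, hcb⟩ := h2
        have hstep : ∃ z', (∃ a' ∈ A, a' ∈ amax f (A ∪ B) z') ∧
            (∃ b' ∈ B, b' ∈ amax f (A ∪ B) z') ∧
            (amax f (A ∪ B) z').card < (amax f (A ∪ B) z).card := by
          rcases Finset.mem_union.1 (amax_subset _ _ _ hc) with h | h
          · exact refine_step f A B hexp z a c b haA h hbB hab hca.symm hcb ha hc hb
          · have hexp' : ∀ i ∈ B ∪ A, ∃ z, ∀ j ∈ B ∪ A, j ≠ i → f j z < f i z := by
              rw [Finset.union_comm]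
              exact hexp
            have := refine_step f B A hexp' z b c a hbB h haA hab.symm hcb.symm hca
              (by rw [Finset.union_comm]; exact hb) (by rw [Finset.union_comm]; exact hc)
              (by rw [Finset.union_comm]; exact ha)
            rw [Finset.union_comm B A] at this
            obtain ⟨z', h1, h2, h3⟩ := this
            exact ⟨z', h2, h1, h3⟩
        obtain ⟨z', h1, h2, h3⟩ := hstep
        exact ih z' (by omega) h1 h2
  obtain ⟨a, haA⟩ := hA
  obtain ⟨b, hbB⟩ := hB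
  obtain ⟨za, hza⟩ := hexp a (Finset.mem_union_left _ haA)
  obtain ⟨zb, hzb⟩ := hexp b (Finset.mem_union_right _ hbB)
  obtain ⟨s, hs0, hs1, a', ha', b', hb', htie, hmax⟩ := exists_tie f A B ⟨a, haA⟩ ⟨b, hbB⟩ za zb
    ⟨a, haA, fun j hj => by
      by_cases hja : j = a
      · rw [hja]
      · exact (hza j (Finset.mem_union_right _ hj) hja).le⟩
    ⟨b, hbB, fun j hj => by
      by_cases hjb : j = b
      · rw [hjb]
      · exact (hzb j (Finset.mem_union_left _ hj) hjb).le⟩
  refine key _ ((1 - s) • za + s • zb) le_rfl ⟨a', ha', mem_amax.2 ⟨Finset.mem_union_left _ ha',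
    hmax⟩⟩ ⟨b', hb', mem_amax.2 ⟨Finset.mem_union_right _ hb', fun j hj => ?_⟩⟩
  rw [← htie]
  exact hmax j hj

/-- Adjacency of functionals in the family `S`. -/
def FAdj (f : ι → E →ₗ[ℝ] ℝ) (S : Finset ι) (i j : ι) : Prop :=
  i ∈ S ∧ j ∈ S ∧ i ≠ j ∧ ∃ z, f i z = f j z ∧ ∀ k ∈ S, k ≠ i → k ≠ j → f k z < f i z

/-- The graph of a family of uniquely exposed functionals is connected. -/
theorem exposed_connected (f : ι → E →ₗ[ℝ] ℝ) (S : Finset ι)
    (hexp : ∀ i ∈ S, ∃ z, ∀ j ∈ S, j ≠ i → f j z < f i z) (i j : ι) (hi : i ∈ S) (hj : j ∈ S) :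
    Relation.ReflTransGen (FAdj f S) i j := by
  classical
  set A : Finset ι := S.filter (fun k => Relation.ReflTransGen (FAdj f S) i k) with hA
  set B : Finset ι := S.filter (fun k => ¬ Relation.ReflTransGen (FAdj f S) i k) with hB
  have hU : A ∪ B = S := by
    rw [hA, hB]
    exact Finset.filter_union_filter_not_eq _ _
  by_contra hcon
  have hBne : B.Nonempty := ⟨j, Finset.mem_filter.2 ⟨hj, hcon⟩⟩
  have hAne : A.Nonempty := ⟨i, Finset.mem_filter.2 ⟨hi, Relation.ReflTransGen.refl⟩⟩
  have hdisj : Disjoint A B := Finset.disjoint_filter_filter_not _ _ _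
  obtain ⟨a, ha, b, hb, z, h1, h2⟩ := exists_edge f A B hAne hBne hdisj (by rw [hU]; exact hexp)
  rw [hU] at h2
  have haS := (Finset.mem_filter.1 ha).1
  have hbS := (Finset.mem_filter.1 hb).1
  apply (Finset.mem_filter.1 hb).2
  refine Relation.ReflTransGen.tail (Finset.mem_filter.1 ha).2 ⟨haS, hbS, ?_, z, h1, h2⟩
  rintro rfl
  exact (Finset.disjoint_left.1 hdisj ha) hb

end Pool.Agent.Cubical
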